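import Pool.Agent.U84.AWQ.Stm
import Pool.Agent.R456.CL.Base
import Pool.Agent.R456.CL.Base3
import Pool.Agent.R456.CL.CaseA

/-!
# Project AWQ, package HULL: the reducing hull of a properly infinite projection
-/

set_option autoImplicit false

namespace Pool.Agent.U928.AWQ

open Pool.Agent.R456.CL Pool.Agent.U84.AWQ

universe u

variable {A : Type u} [CStarAlgebra A]

lemma le_of_rev {p q : A} (hp : PJ p) (hq : PJ q) (h : q * p = p) : Le p q := by
  have := congrArg star h
  rwa [star_mul, PJ.star hp, PJ.star hq] at this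

lemma sub_one_mul_eq {g x : A} (h : g * x = x) : (1 - g) * x = 0 := by
  rw [sub_mul, one_mul, h, sub_self]

lemma of_sub_one_mul {g x : A} (h : (1 - g) * x = 0) : g * x = x := by
  rw [sub_mul, one_mul, sub_eq_zero] at h
  exact h.symm

/-- left projections -/
lemma exists_lp (hLR : PLR A) (x : A) : ∃ l : A, PJ l ∧ l * x = x ∧ (∀ y : A, y * x = 0 → y * l = 0) ∧
    ∀ k : A, PJ k → x * k = x → Sub l k := by
  obtain ⟨w, r, l, hr, hl, h1, h2, h3, h4, h5, h6⟩ := hLR x
  refine ⟨l, hl, h4, h6, fun k hk hxk => ⟨star w, by rw [star_star, h2], ?_⟩⟩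
  rw [star_star, h1]
  have h7 : x * (1 - k) = 0 := by rw [mul_sub, mul_one, hxk, sub_self]
  have h8 := h5 _ h7
  rw [mul_sub, mul_one, sub_eq_zero] at h8
  exact h8.symm

/-- the words in `T` and `star T` -/
def wd (T : A) (L : List Bool) : A := (L.map (fun b => if b then T else star T)).prod

lemma wd_true (T : A) (L : List Bool) : wd T (true :: L) = T * wd T L := by
  unfold wd
  simp

lemma wd_false (T : A) (L : List Bool) : wd T (false :: L) = star T * wd T L := by
  unfold wd
  simp

lemma wd_nil (T : A) : wd T [] = 1 := by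
  unfold wd
  simp

lemma wd_comm {T g : A} (hg : PJ g) (h : g * T = T * g) (L : List Bool) :
    g * wd T L = wd T L * g := by
  have h' : g * star T = star T * g := by
    have := congrArg star h
    rw [star_mul, star_mul, PJ.star hg] at this
    exact this.symm
  induction L with
  | nil => rw [wd_nil, mul_one, one_mul]
  | cons b L ih =>
    cases b
    · rw [wd_false, ← mul_assoc, h', mul_assoc, ih, mul_assoc]
    · rw [wd_true, ← mul_assoc, h, mul_assoc, ih, mul_assoc]

/-- the sequence of the joins -/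
def qs (l : A → A) (P : ℕ → A) : ℕ → A
  | 0 => 0
  | n + 1 => qs l P n + l ((1 - qs l P n) * P n)

/-- the pieces -/
def ss (l : A → A) (P : ℕ → A) (n : ℕ) : A := l ((1 - qs l P n) * P n)

section seq

variable {l : A → A} {P : ℕ → A} {h : A}

lemma qs_succ (n : ℕ) : qs l P (n + 1) = qs l P n + ss l P n := rfl

lemma qs_main (hl1 : ∀ x, PJ (l x)) (hl3 : ∀ x y : A, y * x = 0 → y * l x = 0) (n : ℕ) :
    PJ (qs l P n) ∧ qs l P n * ss l P n = 0 := by
  induction n with
  | zero =>
    refine ⟨?_, ?_⟩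
    · exact pj_zero
    · show (0 : A) * _ = 0
      rw [zero_mul]
  | succ n ih =>
    have h1 : PJ (qs l P (n + 1)) := by
      rw [qs_succ]
      exact pj_add ih.1 (hl1 _) ih.2
    refine ⟨h1, ?_⟩
    unfold ss
    apply hl3
    rw [← mul_assoc, mul_sub, mul_one, PJ.mul_self h1, sub_self, zero_mul]

lemma P_le (hl1 : ∀ x, PJ (l x)) (hl2 : ∀ x, l x * x = x)
    (hl3 : ∀ x y : A, y * x = 0 → y * l x = 0) (n : ℕ) : qs l P (n + 1) * P n = P n := by
  obtain ⟨h1, h2⟩ := qs_main (P := P) hl1 hl3 n
  have h3 : ss l P n * qs l P n = 0 := orth_comm h1 (hl1 _) h2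
  have h4 : ss l P n * ((1 - qs l P n) * P n) = (1 - qs l P n) * P n := hl2 _
  have h5 : ss l P n * P n = (1 - qs l P n) * P n := by
    rw [← h4, ← mul_assoc, mul_sub, mul_one, h3, sub_zero]
  rw [qs_succ, add_mul, h5, sub_mul, one_mul]
  abel

lemma h_mul (hl3 : ∀ x y : A, y * x = 0 → y * l x = 0) (hP : ∀ n, h * P n = P n) (n : ℕ) :
    h * qs l P n = qs l P n ∧ h * ss l P n = ss l P n := by
  have key : ∀ n, h * qs l P n = qs l P n → h * ss l P n = ss l P n := by
    intro n h1
    unfold ss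
    apply of_sub_one_mul
    apply hl3
    have h2 : (1 - h) * ((1 - qs l P n) * P n) = P n - h * P n - (qs l P n - h * qs l P n) * P n := by
      noncomm_ring
    rw [h2, h1, hP]
    simp
  induction n with
  | zero =>
    have h1 : h * qs l P 0 = qs l P 0 := by
      show h * 0 = 0
      rw [mul_zero]
    exact ⟨h1, key 0 h1⟩
  | succ n ih =>
    have h1 : h * qs l P (n + 1) = qs l P (n + 1) := by
      rw [qs_succ, mul_add, ih.1, ih.2]
    exact ⟨h1, key _ h1⟩

lemma ss_qs (hl1 : ∀ x, PJ (l x)) (hl3 : ∀ x y : A, y * x = 0 → y * l x = 0) (i j : ℕ)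
    (hij : i < j) : ss l P i * qs l P j = ss l P i := by
  induction j with
  | zero => exact absurd hij (Nat.not_lt_zero i)
  | succ j ih =>
    obtain ⟨h1, h2⟩ := qs_main (P := P) hl1 hl3 j
    rw [qs_succ, mul_add]
    rcases Nat.lt_succ_iff_lt_or_eq.1 hij with h3 | h3
    · have h4 := ih h3
      have h5 : ss l P i * ss l P j = 0 := by
        rw [← h4, mul_assoc, h2, mul_zero]
      rw [h4, h5, add_zero]
    · subst h3
      have h3 : ss l P i * qs l P i = 0 := orth_comm h1 (hl1 _) h2
      rw [h3, zero_add]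
      exact PJ.mul_self (hl1 _)

lemma ss_orth (hl1 : ∀ x, PJ (l x)) (hl3 : ∀ x y : A, y * x = 0 → y * l x = 0) (i j : ℕ)
    (hij : i ≠ j) : ss l P i * ss l P j = 0 := by
  have key : ∀ i j, i < j → ss l P i * ss l P j = 0 := by
    intro i j hij
    rw [← ss_qs hl1 hl3 i j hij, mul_assoc, (qs_main (P := P) hl1 hl3 j).2, mul_zero]
  rcases lt_or_gt_of_ne hij with h1 | h1
  · exact key i j h1
  · exact orth_comm (hl1 _) (hl1 _) (key j i h1)

lemma x_mul (x : A) (hx : ∀ n, x * ss l P n = 0) (n : ℕ) : x * qs l P n = 0 := by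
  induction n with
  | zero => exact mul_zero x
  | succ n ih => rw [qs_succ, mul_add, ih, hx, add_zero]

end seq

/-- countably many orthogonal isometries of a properly infinite projection -/
def us (v1 v2 : A) : ℕ → A
  | 0 => v2
  | n + 1 => v1 * us v1 v2 n

lemma us_spec {k k1 k2 v1 v2 : A} (hk : PJ k) (hk1 : PJ k1)
    (h12 : k1 * k2 = 0) (l1 : Le k1 k) (l2 : Le k2 k) (a1 : star v1 * v1 = k)
    (b1 : v1 * star v1 = k1) (a2 : star v2 * v2 = k) (b2 : v2 * star v2 = k2) :
    (∀ n, star (us v1 v2 n) * us v1 v2 n = k) ∧ (∀ n, k * us v1 v2 n = us v1 v2 n) ∧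
      ∀ m n, m ≠ n → star (us v1 v2 m) * us v1 v2 n = 0 := by
  have c1 : k * v1 = v1 := pi_le hk hk a1 (by rw [b1]; exact l1)
  have c2 : k * v2 = v2 := pi_le hk hk a2 (by rw [b2]; exact l2)
  have d1 : k1 * v1 = v1 := pi_left hk a1 b1
  have d2 : k2 * v2 = v2 := pi_left hk a2 b2
  have hk' : ∀ n, k * us v1 v2 n = us v1 v2 n := by
    intro n
    cases n with
    | zero => exact c2
    | succ n =>
      show k * (v1 * us v1 v2 n) = v1 * us v1 v2 n
      rw [← mul_assoc, c1]
  have h0 : star v1 * v2 = 0 := by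
    have e1 : star v1 * k1 = star v1 := star_absorb_left hk1 d1
    rw [← e1, ← d2, mul_assoc, ← mul_assoc k1, h12, zero_mul, mul_zero]
  have h0' : star v2 * v1 = 0 := by
    have := congrArg star h0
    rwa [star_mul, star_star, star_zero] at this
  have hstep : ∀ m n, star (us v1 v2 (m + 1)) * us v1 v2 (n + 1) = star (us v1 v2 m) * us v1 v2 n := by
    intro m n
    show star (v1 * us v1 v2 m) * (v1 * us v1 v2 n) = _
    rw [star_mul, mul_assoc, ← mul_assoc (star v1), a1, hk']
  refine ⟨?_, hk', ?_⟩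
  · intro n
    induction n with
    | zero => exact a2
    | succ n ih => rw [hstep, ih]
  · intro m
    induction m with
    | zero =>
      intro n hn
      cases n with
      | zero => exact absurd rfl hn
      | succ n =>
        show star v2 * (v1 * us v1 v2 n) = 0
        rw [← mul_assoc, h0', zero_mul]
    | succ m ih =>
      intro n hn
      cases n with
      | zero =>
        show star (v1 * us v1 v2 m) * v2 = 0
        rw [star_mul, mul_assoc, h0, mul_zero]
      | succ n =>
        rw [hstep]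
        exact ih n (fun h => hn (by rw [h]))

lemma pj_mul_cp {z h : A} (hz : CP z) (hh : PJ h) : PJ (z * h) := by
  refine ⟨?_, ?_⟩
  · unfold IsIdempotentElem
    rw [mul_assoc, ← mul_assoc h, ← hz.2 h, ← mul_assoc, ← mul_assoc, PJ.mul_self hz.1, mul_assoc,
      PJ.mul_self hh]
  · unfold IsSelfAdjoint
    rw [star_mul, PJ.star hz.1, PJ.star hh, hz.2]

/-- properly infinite projections are stable under equivalence -/
lemma pi_eqv {h k : A} (hh : PJ h) (hk : PI k) (he : Eqv h k) : PI h := by
  refine ⟨hh, fun z hz hzh => ?_⟩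
  obtain ⟨v, h1, h2⟩ := he
  have e1 : star (z * v) * (z * v) = z * h := by
    rw [star_mul, PJ.star hz.1, ← hz.2 (star v), mul_assoc, ← mul_assoc (star v), ← hz.2 (star v),
      mul_assoc, h1, ← mul_assoc, PJ.mul_self hz.1]
  have e2 : (z * v) * star (z * v) = z * k := by
    rw [star_mul, PJ.star hz.1, ← hz.2 (star v), mul_assoc, ← mul_assoc v, ← hz.2 v, mul_assoc, h2,
      ← mul_assoc, PJ.mul_self hz.1]
  have hzk : z * k ≠ 0 := by
    intro h0
    rw [h0] at e2
    have h3 : z * v = 0 := by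
      rwa [CStarRing.mul_star_self_eq_zero_iff] at e2
    rw [h3, mul_zero] at e1
    exact hzh e1.symm
  exact infin_eqv (pj_mul_cp hz hk.1) (pj_mul_cp hz hh) ⟨star (z * v), by rw [star_star, e2],
    by rw [star_star, e1]⟩ (hk.2 z hz hzk)

theorem t_HULL : S_HULL.{u} := by
  intro A _ hSup hLR hAdd hInf hSB T g k hg hgT hk hkg
  have hkP := hk.1
  -- left projections
  choose l hl1 hl2 hl3 hl4 using exists_lp hLR
  have hl3' : ∀ x y : A, y * x = 0 → y * l x = 0 := fun x y => hl3 x y
  -- the hull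
  have hPp : ∀ L : List Bool, Sub (l (wd T L * k)) k := fun L =>
    hl4 (wd T L * k) k hkP (by rw [mul_assoc, PJ.mul_self hkP])
  obtain ⟨h, hh⟩ := hSup (ULift.{u} (List Bool)) (fun i => l (wd T i.down * k)) (fun i => hl1 _)
  have hhP : PJ h := hh.1
  have hhp : ∀ L : List Bool, h * l (wd T L * k) = l (wd T L * k) := fun L =>
    Le.rev (hl1 _) hhP (hh.2.1 ⟨L⟩)
  have hhx : ∀ L : List Bool, h * (wd T L * k) = wd T L * k := fun L => by
    rw [← hl2 (wd T L * k), ← mul_assoc, hhp]
  have hgk : g * k = k := Le.rev hkP hg hkg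
  have hhg : Le h g := by
    apply le_of_rev hhP hg
    apply of_sub_one_mul
    apply hh.2.2
    intro i
    apply hl3
    apply sub_one_mul_eq
    rw [← mul_assoc, wd_comm hg hgT, mul_assoc, hgk]
  have hkh : Le k h := by
    apply le_of_rev hkP hhP
    have := hhx []
    rwa [wd_nil, one_mul] at this
  have hT1 : (1 - h) * T * h = 0 := by
    apply hh.2.2
    intro i
    apply hl3
    rw [mul_assoc, ← mul_assoc T, ← wd_true]
    exact sub_one_mul_eq (hhx _)
  have hT2 : (1 - h) * star T * h = 0 := by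
    apply hh.2.2
    intro i
    apply hl3
    rw [mul_assoc, ← mul_assoc (star T), ← wd_false]
    exact sub_one_mul_eq (hhx _)
  have hTh : T * h = h * T := by
    have h1 : T * h = h * T * h := by
      rw [mul_assoc] at hT1
      have := of_sub_one_mul hT1
      rw [← this, mul_assoc]
    have h2 : star T * h = h * star T * h := by
      rw [mul_assoc] at hT2
      have := of_sub_one_mul hT2
      rw [← this, mul_assoc]
    have h3 := congrArg star h2
    simp only [star_mul, star_star, PJ.star hhP] at h3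
    rw [h3, ← mul_assoc]
    exact h1
  -- the hull is not larger than `k`
  obtain ⟨e, he⟩ := exists_surjective_nat (List Bool)
  set P : ℕ → A := fun n => l (wd T (e n) * k) with hP
  have hPh : ∀ n, h * P n = P n := fun n => hhp (e n)
  have hsk : ∀ n, Sub (ss l P n) k := by
    intro n
    have h1 : Sub (ss l P n) (P n) := by
      apply hl4 _ _ (hl1 _)
      rw [mul_assoc, PJ.mul_self (hl1 _)]
    exact sub_trans' (hl1 _) (hl1 _) hkP h1 (hPp (e n))
  have hsup : IsSup (fun i : ULift.{u} ℕ => ss l P i.down) h := by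
    refine ⟨hhP, fun i => ?_, fun x hx => ?_⟩
    · exact le_of_rev (hl1 _) hhP (h_mul hl3' hPh i.down).2
    · have h1 : ∀ n, x * qs l P n = 0 := x_mul x (fun n => hx ⟨n⟩)
      apply hh.2.2
      intro i
      obtain ⟨n, hn⟩ := he i.down
      have h2 : x * P n = 0 := by
        rw [← P_le (P := P) hl1 hl2 hl3' n, ← mul_assoc, h1, zero_mul]
      rw [hP] at h2
      simp only [hn] at h2
      exact h2
  obtain ⟨k1, k2, hk1, hk2, h12, l1, l2, ⟨v1, a1, b1⟩, ⟨v2, a2, b2⟩⟩ := hInf k hk
  obtain ⟨hu1, hu2, hu3⟩ := us_spec hkP hk1 h12 l1 l2 a1 b1 a2 b2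
  choose a ha1 ha2 using hsk
  have ha3 : ∀ n, k * a n = a n := fun n => pi_le (hl1 _) hkP (ha1 n) (ha2 n)
  have hW1 : ∀ n, star (us v1 v2 n * a n) * (us v1 v2 n * a n) = ss l P n := by
    intro n
    rw [star_mul, mul_assoc, ← mul_assoc (star (us v1 v2 n)), hu1, ha3, ha1]
  have hW2 : ∀ m n, m ≠ n → star (us v1 v2 m * a m) * (us v1 v2 n * a n) = 0 := by
    intro m n hmn
    rw [star_mul, mul_assoc, ← mul_assoc (star (us v1 v2 m)), hu3 m n hmn, zero_mul, mul_zero]
  have hW3 : ∀ n, k * (us v1 v2 n * a n) = us v1 v2 n * a n := by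
    intro n
    rw [← mul_assoc, hu2]
  obtain ⟨F, hF⟩ := hSup (ULift.{u} ℕ) (fun i => (us v1 v2 i.down * a i.down) *
    star (us v1 v2 i.down * a i.down)) (fun i => pi_final (hl1 _) (hW1 i.down))
  obtain ⟨v, hv1, hv2, -⟩ := hAdd (ULift.{u} ℕ) (fun i => us v1 v2 i.down * a i.down) h F
    (fun i => by rw [hW1]; exact hl1 _)
    (fun i j hij => by
      rw [hW1, hW1]
      exact ss_orth hl1 hl3' _ _ (fun h => hij (ULift.ext _ _ h)))
    (fun i j hij => by
      have h1 : i.down ≠ j.down := fun h => hij (ULift.ext _ _ h)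
      calc _ = (us v1 v2 i.down * a i.down) * (star (us v1 v2 i.down * a i.down) *
            (us v1 v2 j.down * a j.down)) * star (us v1 v2 j.down * a j.down) := by
            simp only [mul_assoc]
        _ = 0 := by rw [hW2 _ _ h1, mul_zero, zero_mul])
    (by
      have h1 : (fun i : ULift.{u} ℕ => star (us v1 v2 i.down * a i.down) *
          (us v1 v2 i.down * a i.down)) = fun i => ss l P i.down := by
        funext i
        exact hW1 i.down
      rw [h1]
      exact hsup) hF
  have hFk : F * k = F := by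
    apply le_of_rev hF.1 hkP
    apply of_sub_one_mul
    apply hF.2.2
    intro i
    rw [← mul_assoc, sub_one_mul_eq (hW3 i.down), zero_mul]
  have hhk : Sub h k := ⟨v, hv1, by rw [hv2, hFk]⟩
  have hkh' : Sub k h := ⟨k, by rw [PJ.star hkP, PJ.mul_self hkP], by
    rw [PJ.star hkP, PJ.mul_self hkP]; exact hkh⟩
  exact ⟨h, pi_eqv hhP hk (hSB h k hhP hkP hhk hkh'), hhg, hkh, hTh, hhk⟩

end Pool.Agent.U928.AWQ
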